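import Pool.Agent.V6.ClA.Main

/-!
# Order embeddings between the intervals `I_Str(C)` of Boolean strong partial clones

For all Boolean clones `D ⊆ C` there is an order embedding of `I_Str(C)` into `I_Str(D)`.

Idea of the proof. If `D` is contained in `T_0^2` (any two tuples at which a member of `D` is true
have a common entry true) or in the dual clone, then the power set of a countable set embeds into
`I_Str(D)` (partial functions and relations coming from an infinite antichain of finite graphs in
the homomorphism order), and `I_Str(C)` consists of subsets of the countable set of all partial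
functions. In all other cases the map `X ↦ X ∩ Q(D)`, where `Q(D)` is the largest element of
`I_Str(D)`, is an order embedding.
-/

set_option autoImplicit false

namespace Pool.Agent.Results.MP_2f3cff_al.EmbeddingsExist

/-- Partial functions on `{0, 1}` of arity `n + 1` (`none` = undefined). -/
abbrev PF (n : ℕ) : Type := (Fin (n + 1) → Bool) → Option Bool

/-- Total functions on `{0, 1}` of arity `n + 1`. -/
abbrev TF (n : ℕ) : Type := (Fin (n + 1) → Bool) → Bool

/-- The composition `f(g_0, …, g_n)`: it is defined at `x` iff all `g_i(x)` are defined and the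
tuple of these values is in the domain of `f`. -/
def comp {n m : ℕ} (f : PF n) (g : Fin (n + 1) → PF m) : PF m := fun x =>
  if h : ∀ i, (g i x).isSome then f (fun i => (g i x).get (h i)) else none

/-- A total function as a partial function. -/
def tot {n : ℕ} (f : TF n) : PF n := fun x => some (f x)

/-- A partial clone (given by its members of each arity): a set of partial functions which contains
all total projections and is closed under composition. -/
structure IsPartialClone (P : ∀ n, Set (PF n)) : Prop where
  proj : ∀ n (i : Fin (n + 1)), tot (fun x => x i) ∈ P n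
  comp : ∀ n m (f : PF n) (g : Fin (n + 1) → PF m), f ∈ P n → (∀ i, g i ∈ P m) →
    comp f g ∈ P m

/-- `P` is strong: it contains all restrictions of its members. -/
def IsStrong (P : ∀ n, Set (PF n)) : Prop :=
  ∀ n (f g : PF n), f ∈ P n → (∀ x b, g x = some b → f x = some b) → g ∈ P n

/-- A Boolean clone: a set of total functions which contains all projections and is closed under
composition. -/
structure IsClone (C : ∀ n, Set (TF n)) : Prop where
  proj : ∀ n (i : Fin (n + 1)), (fun x => x i) ∈ C n
  comp : ∀ n m (f : TF n) (g : Fin (n + 1) → TF m), f ∈ C n → (∀ i, g i ∈ C m) →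
    (fun x => f (fun i => g i x)) ∈ C m

/-- The interval `I_Str(C)`: the strong partial clones whose total part is exactly `C`. It is
ordered by inclusion (`X ≤ Y` iff `X n ⊆ Y n` for all `n`). -/
def IStr (C : ∀ n, Set (TF n)) : Set (∀ n, Set (PF n)) :=
  {P | IsPartialClone P ∧ IsStrong P ∧ ∀ n (f : TF n), tot f ∈ P n ↔ f ∈ C n}

theorem IStr_eq (C : ∀ n, Set (TF n)) : IStr C = Pool.Agent.V6.ClA.IStr C := by
  ext P
  constructor
  · rintro ⟨h1, h2, h3⟩
    exact ⟨⟨h1.proj, h1.comp⟩, h2, h3⟩
  · rintro ⟨h1, h2, h3⟩
    exact ⟨⟨h1.proj, h1.comp⟩, h2, h3⟩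

/-- **Embeddings of the intervals.** For all Boolean clones `D ⊆ C` there is an order embedding of
`(I_Str(C), ⊆)` into `(I_Str(D), ⊆)`. -/
theorem result (C D : ∀ n, Set (TF n)) (hC : IsClone C) (hD : IsClone D)
    (hDC : ∀ n, D n ⊆ C n) :
    ∃ φ : IStr C → IStr D, ∀ X Y : IStr C,
      (∀ n, (φ X).1 n ⊆ (φ Y).1 n) ↔ (∀ n, X.1 n ⊆ Y.1 n) := by
  have h := Pool.Agent.V6.ClA.main (C := C) (D := D) ⟨hC.proj, hC.comp⟩ ⟨hD.proj, hD.comp⟩ hDC
  rw [← IStr_eq, ← IStr_eq] at h
  obtain ⟨e⟩ := h
  exact ⟨e, fun X Y => e.le_iff_le⟩

end Pool.Agent.Results.MP_2f3cff_al.EmbeddingsExist
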